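import Pool.Agent.H24R2.JP.Chain
import Pool.Agent.H24R2.JP.Spec

set_option autoImplicit false

/-!
# From the window to all zeros up to `exp (κ n)`, and Jensen polynomials
-/

namespace Pool.Agent.H820R3.JE

open Complex Filter Topology MeasureTheory Set Polynomial
open Pool.Agent.H24R2.JP

/-- the window statement used as a hypothesis -/
def WinAt (r0 : ℝ) : Prop := ∃ T0 : ℝ, 2 ≤ T0 ∧ ∀ (t : ℝ) (n : ℕ) (w : ℂ), T0 ≤ t →
      r0 * Om t ≤ n → (n : ℝ) ≤ 2 * r0 * Om t → w.re = -t ^ 2 → w ∈ Par →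
      iteratedDeriv n FF w = 0 → w.im = 0

theorem winJ {κ : ℝ} (hκ7 : 7 ≤ κ) (hκ8 : κ < 8) (h : WinAt (8 / (κ + 8))) :
    ∃ n1 : ℕ, ∀ n : ℕ, n1 ≤ n → ∀ x : ℂ, x ∈ Par → x.im ≠ 0 →
      Real.exp (5 * n) ≤ ‖x‖ → ‖x‖ ≤ Real.exp (κ * n) → iteratedDeriv n FF x ≠ 0 := by
  obtain ⟨T0, hT0, H⟩ := h
  obtain ⟨m0, hm0⟩ := exists_nat_ge (Real.log T0)
  refine ⟨max m0 1, fun n hn x hxP him hlo hup h0 => him ?_⟩
  have hn1 : (1 : ℝ) ≤ n := by exact_mod_cast (le_max_right _ _).trans hn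
  have hnm : Real.log T0 ≤ n := hm0.trans (by exact_mod_cast (le_max_left _ _).trans hn)
  have hP : x.re + x.im ^ 2 ≤ 1 / 4 := hxP
  have hE5 : Real.exp (4 * n) + 1 ≤ Real.exp (5 * n) := by
    have e1 : Real.exp (5 * (n : ℝ)) = Real.exp (4 * n) * Real.exp n := by
      rw [← Real.exp_add]; ring_nf
    have e2 : (n : ℝ) + 1 ≤ Real.exp n := Real.add_one_le_exp _
    have e3 : 1 ≤ Real.exp (4 * (n : ℝ)) := Real.one_le_exp (by positivity)
    rw [e1]
    nlinarith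
  have hE4 : 1 ≤ Real.exp (4 * (n : ℝ)) := Real.one_le_exp (by positivity)
  have hnorm : ‖x‖ ^ 2 = x.re ^ 2 + x.im ^ 2 := by
    rw [← Complex.normSq_eq_norm_sq, Complex.normSq_apply]; ring
  have hre1 : x.re ≤ 1 / 4 := by nlinarith [sq_nonneg x.im]
  have hre : ‖x‖ - 1 / 2 ≤ -x.re := by
    by_contra hcon
    push Not at hcon
    have h1 : ‖x‖ ^ 2 ≤ (1 / 2 - x.re) ^ 2 := by nlinarith
    have h2 : ‖x‖ ≤ 1 / 2 - x.re := by
      have := abs_le_of_sq_le_sq h1 (by linarith)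
      have h3 := abs_of_nonneg (norm_nonneg x)
      linarith [abs_le.1 (abs_le_of_sq_le_sq h1 (by linarith : (0 : ℝ) ≤ 1 / 2 - x.re))]
    linarith
  have hre4 : Real.exp (4 * n) ≤ -x.re := by linarith
  have hrepos : 0 < -x.re := lt_of_lt_of_le (Real.exp_pos _) hre4
  have hre8 : -x.re ≤ Real.exp (κ * n) := by
    refine le_trans ?_ hup
    have := Complex.abs_re_le_norm x
    have := neg_abs_le x.re
    linarith
  have hl4 : 4 * n ≤ Real.log (-x.re) := by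
    rw [← Real.log_exp (4 * (n : ℝ))]
    exact Real.log_le_log (Real.exp_pos _) hre4
  have hl8 : Real.log (-x.re) ≤ κ * n := by
    rw [← Real.log_exp (κ * (n : ℝ))]
    exact Real.log_le_log hrepos hre8
  set t : ℝ := Real.sqrt (-x.re) with ht
  have ht2 : t ^ 2 = -x.re := Real.sq_sqrt hrepos.le
  have htpos : 0 < t := Real.sqrt_pos.2 hrepos
  have hOm : Om t = Real.log (-x.re) / 4 := by
    unfold Om
    rw [ht, Real.log_sqrt hrepos.le]
    ring
  have htT : T0 ≤ t := by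
    have h1 : Real.log T0 ≤ Real.log t := by
      rw [ht, Real.log_sqrt hrepos.le]
      linarith
    exact (Real.log_le_log_iff (by linarith) htpos).1 h1
  refine H t n x htT ?_ ?_ (by rw [ht2]; ring) hxP h0
  · rw [hOm, div_mul_eq_mul_div, div_le_iff₀ (by linarith)]
    nlinarith
  · rw [hOm]
    have e : 2 * (8 / (κ + 8)) * (Real.log (-x.re) / 4) = 4 * Real.log (-x.re) / (κ + 8) := by
      field_simp
      ring
    rw [e, le_div_iff₀ (by linarith)]
    nlinarith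

theorem chainJ (h1 : SPar) (h2 : SCircle) (h4 : SLow) (h5 : SGood) {κ : ℝ} (hκ7 : 7 ≤ κ)
    (h3 : ∃ n1 : ℕ, ∀ n : ℕ, n1 ≤ n → ∀ x : ℂ, x ∈ Par → x.im ≠ 0 →
      Real.exp (5 * n) ≤ ‖x‖ → ‖x‖ ≤ Real.exp (κ * n) → iteratedDeriv n FF x ≠ 0) :
    ∃ N1 : ℕ, ∀ n : ℕ, N1 ≤ n → ∀ w : ℂ, w.im ≠ 0 → iteratedDeriv n FF w = 0 →
      Real.exp (κ * n) < ‖w‖ := by
  obtain ⟨n1, hwin⟩ := h3
  -- the growth comparison
  have hgr : ∃ m0 : ℕ, ∀ m : ℕ, m0 ≤ m →
      Real.exp (5 * ((m : ℝ) + 1)) + 1 + 2 * Real.sqrt (Real.exp (5 * ((m : ℝ) + 1)) + 1 / 2) ≤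
        Real.exp (κ * m) := by
    refine ⟨1000, fun m hm => ?_⟩
    have hm' : (1000 : ℝ) ≤ m := by exact_mod_cast hm
    set E := Real.exp (5 * ((m : ℝ) + 1)) with hE
    have hE1 : 1 ≤ E := Real.one_le_exp (by positivity)
    have hs : Real.sqrt (E + 1 / 2) ≤ E + 1 / 2 := by
      rw [Real.sqrt_le_left (by linarith)]
      nlinarith
    have hle : E + 1 + 2 * Real.sqrt (E + 1 / 2) ≤ 5 * E := by linarith
    have h6 : (5 : ℝ) ≤ Real.exp 2 := by
      have h7 : (2.7 : ℝ) < Real.exp 1 := by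
        have := Real.exp_one_gt_d9
        linarith
      have h8 : Real.exp 2 = Real.exp 1 * Real.exp 1 := by rw [← Real.exp_add]; norm_num
      rw [h8]; nlinarith
    calc E + 1 + 2 * Real.sqrt (E + 1 / 2) ≤ 5 * E := hle
      _ ≤ Real.exp 2 * E := by
          exact mul_le_mul_of_nonneg_right h6 (by linarith)
      _ = Real.exp (2 + 5 * ((m : ℝ) + 1)) := by rw [hE, ← Real.exp_add]
      _ ≤ Real.exp (κ * m) := Real.exp_le_exp.2 (by nlinarith)
  obtain ⟨m0, hm0⟩ := hgr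
  set n2 := max n1 m0 with hn2
  set A : ℝ := Real.exp (5 * (n2 : ℝ)) with hA
  have hA0 : 0 < A := Real.exp_pos _
  -- descendants of the zeros at level n2
  have key : ∀ k : ℕ, ∀ w : ℂ, w.im ≠ 0 → iteratedDeriv (n2 + k) FF w = 0 →
      ‖w‖ ≤ Real.exp (5 * ((n2 + k : ℕ) : ℝ)) → |w.im| ≤ A ∧ |w.re| ≤ A * (k + 1) := by
    intro k
    induction k with
    | zero =>
      intro w _ _ hw
      simp only [add_zero] at hw
      rw [← hA] at hw
      refine ⟨(Complex.abs_im_le_norm w).trans hw, ?_⟩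
      simpa using (Complex.abs_re_le_norm w).trans hw
    | succ k ih =>
      intro w him hw0 hw
      have hcast : ((n2 + (k + 1) : ℕ) : ℝ) = ((n2 + k : ℕ) : ℝ) + 1 := by push_cast; ring
      rw [hcast] at hw
      obtain ⟨z, hzim, hz0, hzw⟩ := h2 FF h5 (n2 + k) w him hw0
      have hzPar : z ∈ Par := h1 FF h5 (n2 + k) z hz0
      have hzn := (ChainAux.parent_norm hzPar hzw hw).trans (hm0 (n2 + k) (by omega))
      have hzlt : ‖z‖ ≤ Real.exp (5 * ((n2 + k : ℕ) : ℝ)) := by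
        by_contra hcon
        push Not at hcon
        exact hwin (n2 + k) (by omega) z hzPar hzim hcon.le hzn hz0
      obtain ⟨i1, i2⟩ := ih z hzim hz0 hzlt
      have j1 : |w.im| ≤ |z.im| := by
        have := Complex.abs_im_le_norm (w - (z.re : ℂ))
        simp only [Complex.sub_im, Complex.ofReal_im, sub_zero] at this
        exact this.trans hzw
      have j2 : |w.re - z.re| ≤ |z.im| := by
        have := Complex.abs_re_le_norm (w - (z.re : ℂ))
        simp only [Complex.sub_re, Complex.ofReal_re] at this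
        exact this.trans hzw
      refine ⟨j1.trans i1, ?_⟩
      have j3 : |w.re| ≤ |z.re| + |w.re - z.re| := by
        have := abs_add_le z.re (w.re - z.re)
        simpa using this
      push_cast
      linarith [mul_add A ((k : ℝ) + 1) 1]
  obtain ⟨N0, hN0⟩ := h4 (3 * A)
  refine ⟨max (max n2 N0) 1, fun n hn w him hw0 => ?_⟩
  by_contra hcon
  push Not at hcon
  have hn1 : 1 ≤ n := (le_max_right _ _).trans hn
  have hnn2 : n2 ≤ n := ((le_max_left _ _).trans (le_max_left _ _)).trans hn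
  have hnN0 : N0 ≤ n := ((le_max_right _ _).trans (le_max_left _ _)).trans hn
  have hwPar : w ∈ Par := h1 FF h5 n w hw0
  have hlow : ‖w‖ ≤ Real.exp (5 * (n : ℝ)) := by
    by_contra hc
    push Not at hc
    exact hwin n (by omega) w hwPar him hc.le hcon hw0
  obtain ⟨k, rfl⟩ := Nat.exists_eq_add_of_le hnn2
  obtain ⟨i1, i2⟩ := key k w him hw0 hlow
  have h9 : ‖w‖ ≤ |w.re| + |w.im| := Complex.norm_le_abs_re_add_abs_im w
  have h10 := hN0 (n2 + k) hnN0 w hw0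
  have h11 : (1 : ℝ) ≤ ((n2 + k : ℕ) : ℝ) := by exact_mod_cast hn1
  have h12 : (k : ℝ) ≤ ((n2 + k : ℕ) : ℝ) := by push_cast; linarith [Nat.cast_nonneg (α := ℝ) n2]
  nlinarith

theorem hypJ (h2 : SJensen) (h3 : SGood) (h5 : SB1) {κ κ' : ℝ} (hκ : 0 ≤ κ)
    (hκκ : κ < κ')
    (h1 : ∃ N1 : ℕ, ∀ n : ℕ, N1 ≤ n → ∀ w : ℂ, w.im ≠ 0 → iteratedDeriv n FF w = 0 →
      Real.exp (κ' * n) < ‖w‖) :
    ∃ N : ℕ, ∀ d n : ℕ, N ≤ n → (d : ℝ) ≤ Real.exp (κ * n) → Hyperbolic (jensen d n) := by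
  obtain ⟨N1, hN1⟩ := h1
  obtain ⟨m0, hm0⟩ := exists_nat_ge (1 / (κ' - κ))
  refine ⟨max N1 m0, fun d n hn hd z hz => ?_⟩
  have hnN : N1 ≤ n := (le_max_left _ _).trans hn
  have hnm : 1 / (κ' - κ) ≤ n := hm0.trans (by exact_mod_cast (le_max_right _ _).trans hn)
  have haev : aeval z (jensen d n) =
      ∑ j ∈ Finset.range (d + 1), (d.choose j : ℂ) * iteratedDeriv (n + j) FF 0 * z ^ j := by
    unfold jensen
    rw [map_sum]
    refine Finset.sum_congr rfl fun j _ => ?_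
    rw [h5.2.2.2 (n + j)]
    simp
  rw [haev] at hz
  set R : ℝ := Real.exp (κ' * n) with hR
  have hn0 : (0 : ℝ) ≤ n := Nat.cast_nonneg n
  have hE1 : 1 ≤ Real.exp (κ * n) := Real.one_le_exp (by positivity)
  have hdR : (d : ℝ) + 1 ≤ R := by
    have e1 : R = Real.exp (κ * n) * Real.exp ((κ' - κ) * n) := by
      rw [hR, ← Real.exp_add]; ring_nf
    have e2 : 1 ≤ (κ' - κ) * n := by
      rw [div_le_iff₀ (by linarith)] at hnm
      linarith
    have e3 : (κ' - κ) * n + 1 ≤ Real.exp ((κ' - κ) * n) := Real.add_one_le_exp _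
    rw [e1]
    nlinarith
  have hR0 : 0 < R := Real.exp_pos _
  have hd0 : (0 : ℝ) ≤ d := Nat.cast_nonneg d
  refine h2 FF h3 n d R hR0 ?_ ?_ z hz
  · nlinarith
  · intro w hw hw0
    by_contra him
    exact absurd (hN1 n hnN w him hw0) (not_lt.2 hw)

end Pool.Agent.H820R3.JE
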