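import Pool.Agent.H820R3.JE.WinF
import Pool.Agent.H820R3.JE.ChainF
import Pool.Agent.H986R2.K4.All
import Pool.Agent.H24R2.JP.All

set_option autoImplicit false

/-!
# Jensen polynomials of the Riemann xi function: degree up to `exp (κ n)`, `κ < 8`
-/

namespace Pool.Agent.H820R3.JE

open Pool.Agent.H24R2.JP

theorem winAt {r0 : ℝ} (h0 : 1 / 2 < r0) (h1 : r0 ≤ 1) : WinAt r0 :=
  winF (Pool.Agent.H986R2.K4.normQ Pool.Agent.H986R2.K4.hh
      (Pool.Agent.H986R2.K4.pl Pool.Agent.H986R2.K4.hh))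
    (Pool.Agent.H986R2.K4.aw Pool.Agent.H986R2.K4.lapQ)
    (Pool.Agent.H986R2.K4.nl (Pool.Agent.H986R2.K4.rt Pool.Agent.H986R2.K4.lapQ))
    Pool.Agent.H986R2.K4.a1 h0 h1

theorem zerosF {κ : ℝ} (hκ7 : 7 ≤ κ) (hκ8 : κ < 8) :
    ∃ N1 : ℕ, ∀ n : ℕ, N1 ≤ n → ∀ w : ℂ, w.im ≠ 0 → iteratedDeriv n FF w = 0 →
      Real.exp (κ * n) < ‖w‖ := by
  refine chainJ parT circT lowT goodT hκ7 (winJ hκ7 hκ8 (winAt ?_ ?_))
  · rw [div_lt_div_iff₀ (by norm_num) (by linarith)]; linarith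
  · rw [div_le_one (by linarith)]; linarith

theorem jensen8 {κ : ℝ} (hκ8 : κ < 8) :
    ∃ N : ℕ, ∀ d n : ℕ, N ≤ n → (d : ℝ) ≤ Real.exp (κ * n) → Hyperbolic (jensen d n) := by
  have h1 : (7 : ℝ) ≤ max κ 7 := le_max_right _ _
  have h2 : max κ 7 < 8 := max_lt hκ8 (by norm_num)
  obtain ⟨N, hN⟩ := hypJ jensenT goodT b1 (κ := max κ 7) (κ' := (max κ 7 + 8) / 2) (by linarith)
    (by linarith) (zerosF (by linarith) (by linarith))
  refine ⟨N, fun d n hn hd => hN d n hn (hd.trans (Real.exp_le_exp.2 ?_))⟩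
  exact mul_le_mul_of_nonneg_right (le_max_left _ _) (Nat.cast_nonneg n)

end Pool.Agent.H820R3.JE
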