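import Pool.Agent.H986R2.K4.Spec
import Pool.Agent.H156R2.DZArc

set_option autoImplicit false

/-!
# The local situation is stable under a small change of variable
-/

namespace Pool.Agent.H820R3.JE

open Complex Filter Topology MeasureTheory Set
open Pool.Agent.H986R2.K4 (QQ)
open Pool.Agent.H156R2.DZArc (growF)

lemma convFar (κ R : ℝ) : Convex ℝ ({w : ℂ | 1 - κ ≤ w.re} ∩ Metric.closedBall 0 R) :=
  (convex_halfSpace_re_ge (1 - κ)).inter (convex_closedBall _ _)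

theorem pert {κ R η δ : ℝ} {n : ℕ} {F G φ φ' : ℂ → ℂ} (hκ : 0 < κ) (hκ1 : κ ≤ 1 / 2)
    (hR : 4 ≤ R) (hδ0 : 0 ≤ δ) (hη0 : 0 ≤ η) (hη1 : η ≤ 1)
    (hsm : 3 * δ + η * (R + 1) ≤ κ / 4) (hF : QQ κ R n η F)
    (hG : Differentiable ℂ G)
    (hGs : ∀ z : ℂ, G (-((starRingEnd ℂ) z)) = (starRingEnd ℂ) (G z))
    (hφ : ∀ z : ℂ, ‖z‖ ≤ R - 1 → G =ᶠ[𝓝 z] fun z => F (φ z))
    (hφ1 : ∀ z : ℂ, ‖z‖ ≤ R - 1 → ‖φ z - z‖ ≤ δ)
    (hφ2 : ∀ z : ℂ, ‖z‖ ≤ R - 1 → HasDerivAt φ (φ' z) z ∧ ‖φ' z - 1‖ ≤ δ) :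
    QQ (κ / 2) (R - 1) n (η + 2 * δ) G := by
  have hn0 : (0 : ℝ) ≤ n := Nat.cast_nonneg n
  have hηR : 0 ≤ η * (R + 1) := mul_nonneg hη0 (by linarith)
  have hδ1 : δ ≤ κ / 12 := by linarith
  have hS : ∀ w ∈ ({w : ℂ | 1 - κ ≤ w.re} ∩ Metric.closedBall 0 R),
      DifferentiableAt ℂ F w ∧ F w ≠ 0 ∧ ‖logDeriv F w - (n : ℝ)‖ ≤ η * (n : ℝ) := by
    intro w hw
    have h1 := hF.far w hw.1 (by simpa using hw.2)
    exact ⟨hF.diff w, h1.1, by simpa using h1.2⟩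
  have hre : ∀ z : ℂ, ‖z‖ ≤ R - 1 → |(φ z).re - z.re| ≤ δ := by
    intro z hz
    have := (Complex.abs_re_le_norm (φ z - z)).trans (hφ1 z hz)
    simpa using this
  have hnm : ∀ z : ℂ, ‖z‖ ≤ R - 1 → ‖φ z‖ ≤ R := by
    intro z hz
    have h1 := norm_add_le (φ z - z) z
    rw [sub_add_cancel] at h1
    have h2 := hφ1 z hz
    linarith
  refine ⟨hG, hGs, ?_, ?_⟩
  · intro z hz1 hz2
    have h1 := hre z hz2
    have h2 := (abs_le.1 h1).1
    obtain ⟨h3, h4⟩ := hF.far (φ z) (by linarith) (hnm z hz2)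
    have hGz := (hφ z hz2).self_of_nhds
    refine ⟨by rw [hGz]; exact h3, ?_⟩
    obtain ⟨h5, h6⟩ := hφ2 z hz2
    have h7 : HasDerivAt G (deriv F (φ z) * φ' z) z :=
      ((hF.diff (φ z)).hasDerivAt.comp z h5).congr_of_eventuallyEq (hφ z hz2)
    have h8 : logDeriv G z = logDeriv F (φ z) * φ' z := by
      rw [logDeriv_apply, logDeriv_apply, h7.deriv, hGz]
      ring
    rw [h8]
    have e1 : logDeriv F (φ z) * φ' z - n =
        (logDeriv F (φ z) - n) * (φ' z - 1) + n * (φ' z - 1) + (logDeriv F (φ z) - n) := by ring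
    rw [e1]
    have h9 : ‖(n : ℂ)‖ = n := by simp
    calc ‖(logDeriv F (φ z) - n) * (φ' z - 1) + n * (φ' z - 1) + (logDeriv F (φ z) - n)‖
        ≤ ‖logDeriv F (φ z) - n‖ * ‖φ' z - 1‖ + n * ‖φ' z - 1‖ + ‖logDeriv F (φ z) - n‖ := by
          refine (norm_add_le _ _).trans (add_le_add ((norm_add_le _ _).trans ?_) le_rfl)
          rw [norm_mul, norm_mul, h9]
      _ ≤ (η * n) * δ + n * δ + η * n := by
          have := norm_nonneg (φ' z - 1)
          have := norm_nonneg (logDeriv F (φ z) - n)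
          gcongr
      _ ≤ (η + 2 * δ) * n := by
          have : η * n * δ ≤ 1 * n * δ := by gcongr
          nlinarith
  · intro z hz1 hz2
    have hGz := (hφ z hz2).self_of_nhds
    have h1R : ‖(1 : ℂ)‖ ≤ R - 1 := by rw [norm_one]; linarith
    have hG1 := (hφ 1 h1R).self_of_nhds
    obtain ⟨v, hv⟩ : ∃ v, v = φ 1 := ⟨_, rfl⟩
    have hv1 : ‖1 - v‖ ≤ δ := by rw [norm_sub_rev, hv]; exact hφ1 1 h1R
    have hv2 : |v.re - 1| ≤ δ := by have := hre 1 h1R; simpa [hv] using this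
    have hvS : v ∈ ({w : ℂ | 1 - κ ≤ w.re} ∩ Metric.closedBall 0 R) := by
      refine ⟨?_, ?_⟩
      · show 1 - κ ≤ v.re
        have := (abs_le.1 hv2).1
        linarith
      · have := hnm 1 h1R
        simpa [hv] using this
    have h1S : (1 : ℂ) ∈ ({w : ℂ | 1 - κ ≤ w.re} ∩ Metric.closedBall 0 R) := by
      refine ⟨?_, ?_⟩
      · show 1 - κ ≤ (1 : ℂ).re
        rw [Complex.one_re]; linarith
      · simp; linarith
    have hFv : ‖F 1‖ ≤ ‖F v‖ * Real.exp (2 * δ * n) := by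
      refine (growF (convFar κ R) hS hvS h1S).trans ?_
      refine mul_le_mul_of_nonneg_left (Real.exp_le_exp.2 ?_) (norm_nonneg _)
      have h2 : (n : ℝ) * ((1 : ℂ).re - v.re) ≤ n * δ := by
        refine mul_le_mul_of_nonneg_left ?_ hn0
        rw [Complex.one_re]
        have := (abs_le.1 hv2).1
        linarith
      have h3 : η * n * ‖1 - v‖ ≤ 1 * n * δ := by gcongr
      linarith
    obtain ⟨u, hu1, hu2, hu3⟩ : ∃ u : ℂ, u.re = |(φ z).re| ∧ ‖u‖ = ‖φ z‖ ∧ ‖F u‖ = ‖F (φ z)‖ := by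
      rcases le_total 0 (φ z).re with h | h
      · exact ⟨φ z, (abs_of_nonneg h).symm, rfl, rfl⟩
      · refine ⟨-((starRingEnd ℂ) (φ z)), ?_, ?_, ?_⟩
        · rw [abs_of_nonpos h]; simp
        · simp
        · rw [hF.symm, RCLike.norm_conj]
    have huR : ‖u‖ ≤ R := by rw [hu2]; exact hnm z hz2
    have hure : u.re ≤ 1 - κ / 2 + δ := by
      rw [hu1]
      have h2 := hre z hz2
      have h3 := abs_add_le ((φ z).re - z.re) z.re
      rw [sub_add_cancel] at h3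
      linarith
    have hu0 : 0 ≤ u.re := by rw [hu1]; exact abs_nonneg _
    show ‖G z‖ ≤ ‖G 1‖ * Real.exp (-(κ / 2 / 2 * n))
    rw [hGz, hG1]
    show ‖F (φ z)‖ ≤ ‖F (φ 1)‖ * _
    rw [← hv, ← hu3]
    have fin : ∀ a : ℝ, ‖F u‖ ≤ ‖F 1‖ * Real.exp a → a + 2 * δ * n ≤ -(κ / 2 / 2 * n) →
        ‖F u‖ ≤ ‖F v‖ * Real.exp (-(κ / 2 / 2 * n)) := by
      intro a h2 h3
      calc ‖F u‖ ≤ ‖F 1‖ * Real.exp a := h2
        _ ≤ ‖F v‖ * Real.exp (2 * δ * n) * Real.exp a :=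
            mul_le_mul_of_nonneg_right hFv (Real.exp_pos _).le
        _ = ‖F v‖ * Real.exp (a + 2 * δ * n) := by rw [Real.exp_add]; ring
        _ ≤ _ := mul_le_mul_of_nonneg_left (Real.exp_le_exp.2 h3) (norm_nonneg _)
    rcases le_total u.re (1 - κ) with h | h
    · refine fin _ (hF.near u (by rw [abs_of_nonneg hu0]; exact h) huR) ?_
      have : 2 * δ * n ≤ κ / 4 * n := by gcongr; linarith
      linarith
    · refine fin _ (growF (convFar κ R) hS h1S ⟨h, by simpa using huR⟩) ?_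
      have h2 : ‖u - 1‖ ≤ R + 1 := by
        refine (norm_sub_le _ _).trans ?_
        rw [norm_one]; linarith
      have h3 : η * n * ‖u - 1‖ ≤ η * n * (R + 1) := by gcongr
      have h4 : (n : ℝ) * (u.re - (1 : ℂ).re) ≤ n * (-(κ / 2) + δ) := by
        refine mul_le_mul_of_nonneg_left ?_ hn0
        rw [Complex.one_re]; linarith
      have h5 : (3 * δ + η * (R + 1)) * n ≤ κ / 4 * n := by gcongr
      nlinarith

end Pool.Agent.H820R3.JE
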