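import Pool.Agent.H820R3.JE.Pert
import Pool.Agent.H24R2.JP.B1

set_option autoImplicit false

/-!
# The change of variable from `z` to `x = z ^ 2`
-/

namespace Pool.Agent.H820R3.JE

open Complex Filter Topology MeasureTheory Set
open Pool.Agent.H24R2.JP (XX FF Om b1)
open Pool.Agent.H24R2.JP.B1h (FF_sq FF_conj)
open Pool.Agent.H986R2.K4 (QQ)

/-- `1 - 2 i r z / t` -/
noncomputable def qq (t r : ℝ) (z : ℂ) : ℂ := 1 - 2 * I * r * z / t

/-- a square root of `qq` with non-negative real part -/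
noncomputable def ss (t r : ℝ) (z : ℂ) : ℂ := cexp (Complex.log (qq t r z) / 2)

noncomputable def ph (t r : ℝ) (z : ℂ) : ℂ := I * t / r * (ss t r z - 1)

noncomputable def GX (t r : ℝ) (z : ℂ) : ℂ := FF (-(t : ℂ) ^ 2 + 2 * I * t * r * z)

lemma ss_sq {t r : ℝ} {z : ℂ} (h : qq t r z ≠ 0) : ss t r z ^ 2 = qq t r z := by
  unfold ss
  rw [← Complex.exp_nat_mul]
  push_cast
  rw [mul_div_cancel₀ _ (two_ne_zero), Complex.exp_log h]

lemma ss_re (t r : ℝ) (z : ℂ) : 0 ≤ (ss t r z).re := by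
  unfold ss
  rw [Complex.exp_re]
  refine mul_nonneg (Real.exp_pos _).le ?_
  have h1 : (Complex.log (qq t r z) / 2).im = (qq t r z).arg / 2 := by
    have : Complex.log (qq t r z) / 2 = ((1 / 2 : ℝ) : ℂ) * Complex.log (qq t r z) := by
      push_cast; ring
    rw [this, Complex.im_ofReal_mul, Complex.log_im]
    ring
  rw [h1]
  refine Real.cos_nonneg_of_mem_Icc ⟨?_, ?_⟩
  · have := Complex.neg_pi_lt_arg (qq t r z)
    linarith
  · have := Complex.arg_le_pi (qq t r z)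
    linarith

lemma ss_add_one (t r : ℝ) (z : ℂ) : 1 ≤ ‖ss t r z + 1‖ := by
  have h1 := Complex.abs_re_le_norm (ss t r z + 1)
  have h2 := ss_re t r z
  rw [Complex.add_re, Complex.one_re, abs_of_nonneg (by linarith)] at h1
  linarith

lemma ss_sub_one {t r : ℝ} {z : ℂ} (h : qq t r z ≠ 0) : ‖ss t r z - 1‖ ≤ ‖qq t r z - 1‖ := by
  have h1 : (ss t r z - 1) * (ss t r z + 1) = qq t r z - 1 := by
    rw [← ss_sq h]; ring
  rw [← h1, norm_mul]
  have := ss_add_one t r z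
  have := norm_nonneg (ss t r z - 1)
  nlinarith

lemma GX_eq {t r : ℝ} {z : ℂ} (ht : t ≠ 0) (hr : r ≠ 0) (h : qq t r z ≠ 0) :
    GX t r z = XX (I * t + (r : ℂ) * ph t r z) := by
  have htc : (t : ℂ) ≠ 0 := by exact_mod_cast ht
  have hrc : (r : ℂ) ≠ 0 := by exact_mod_cast hr
  have e1 : I * t + (r : ℂ) * ph t r z = I * t * ss t r z := by
    unfold ph
    field_simp
    ring
  have e2 : (I * t * ss t r z) ^ 2 = -(t : ℂ) ^ 2 + 2 * I * t * r * z := by
    rw [mul_pow, ss_sq h, mul_pow, I_sq]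
    unfold qq
    field_simp
    ring
  rw [e1, ← FF_sq, e2, GX]

lemma qq_sub {t r : ℝ} (ht : 0 < t) (hr : 0 < r) (z : ℂ) : ‖qq t r z - 1‖ = 2 * r * ‖z‖ / t := by
  have : qq t r z - 1 = -(2 * I * r * z / t) := by unfold qq; ring
  rw [this, norm_neg, norm_div, norm_mul, norm_mul, norm_mul, Complex.norm_real, Complex.norm_real,
    Real.norm_of_nonneg ht.le, Real.norm_of_nonneg hr.le, Complex.norm_I]
  simp

lemma qq_ne {t r : ℝ} {z : ℂ} (h : ‖qq t r z - 1‖ < 1) : qq t r z ≠ 0 := by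
  intro h0
  rw [h0] at h
  simp at h

lemma GX_eventually {t r : ℝ} {z : ℂ} (ht : t ≠ 0) (hr : r ≠ 0) (h : qq t r z ≠ 0) :
    GX t r =ᶠ[𝓝 z] fun z => XX (I * t + (r : ℂ) * ph t r z) := by
  have hc : Continuous (qq t r) := by unfold qq; fun_prop
  filter_upwards [hc.continuousAt.eventually_ne h] with w hw
  exact GX_eq ht hr hw

lemma ph_sub {t r : ℝ} {z : ℂ} (ht : 0 < t) (hr : 0 < r) (h : qq t r z ≠ 0) :
    ‖ph t r z - z‖ ≤ ‖z‖ * ‖qq t r z - 1‖ := by
  have htc : (t : ℂ) ≠ 0 := by exact_mod_cast ht.ne'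
  have hrc : (r : ℂ) ≠ 0 := by exact_mod_cast hr.ne'
  have h1 : (ss t r z - 1) * (ss t r z + 1) = qq t r z - 1 := by
    rw [← ss_sq h]; ring
  have hs1 := ss_add_one t r z
  have hs2 : ss t r z + 1 ≠ 0 := by
    intro h0; rw [h0, norm_zero] at hs1; linarith
  have e1 : ph t r z * (ss t r z + 1) = 2 * z := by
    unfold ph
    rw [mul_assoc, h1]
    unfold qq
    field_simp
    ring_nf
    rw [I_sq]
    ring
  have e2 : (ph t r z - z) * (ss t r z + 1) = -(z * (ss t r z - 1)) := by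
    rw [sub_mul, e1]; ring
  have e3 : ‖ph t r z - z‖ * ‖ss t r z + 1‖ = ‖z‖ * ‖ss t r z - 1‖ := by
    rw [← norm_mul, e2, norm_neg, norm_mul]
  have h3 := ss_sub_one h
  have h4 := norm_nonneg (ph t r z - z)
  calc ‖ph t r z - z‖ ≤ ‖ph t r z - z‖ * ‖ss t r z + 1‖ := by nlinarith
    _ = ‖z‖ * ‖ss t r z - 1‖ := e3
    _ ≤ _ := mul_le_mul_of_nonneg_left h3 (norm_nonneg _)

lemma ph_deriv {t r : ℝ} {z : ℂ} (ht : 0 < t) (hr : 0 < r) (h : ‖qq t r z - 1‖ ≤ 1 / 2) :
    HasDerivAt (ph t r) (1 / ss t r z) z ∧ ‖1 / ss t r z - 1‖ ≤ 2 * ‖qq t r z - 1‖ := by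
  have htc : (t : ℂ) ≠ 0 := by exact_mod_cast ht.ne'
  have hrc : (r : ℂ) ≠ 0 := by exact_mod_cast hr.ne'
  have hq : qq t r z ≠ 0 := qq_ne (by linarith)
  have hs : ss t r z ≠ 0 := Complex.exp_ne_zero _
  have hsl : qq t r z ∈ Complex.slitPlane := by
    rw [Complex.mem_slitPlane_iff]
    left
    have h1 := (abs_le.1 ((Complex.abs_re_le_norm (qq t r z - 1)).trans h)).1
    rw [Complex.sub_re, Complex.one_re] at h1
    linarith
  constructor
  · have h1 : HasDerivAt (qq t r) (-(2 * I * r / t)) z := by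
      have h2 : HasDerivAt (fun z : ℂ => 2 * I * r * z / t) (2 * I * r / t) z := by
        have := ((hasDerivAt_id z).const_mul (2 * I * (r : ℂ))).div_const (t : ℂ)
        simpa using this
      exact h2.const_sub 1
    have h3 : HasDerivAt (ss t r) (cexp (Complex.log (qq t r z) / 2) *
        (-(2 * I * r / t) / qq t r z / 2)) z := ((h1.clog hsl).div_const 2).cexp
    have h4 : HasDerivAt (ph t r) (I * t / r * (cexp (Complex.log (qq t r z) / 2) *
        (-(2 * I * r / t) / qq t r z / 2))) z := (h3.sub_const 1).const_mul (I * t / r)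
    refine h4.congr_deriv ?_
    have h5 : cexp (Complex.log (qq t r z) / 2) = ss t r z := rfl
    rw [h5, ← ss_sq hq]
    field_simp
    rw [I_sq]
    ring
  · have h1 := ss_sub_one hq
    have h2 : 1 / 2 ≤ ‖ss t r z‖ := by
      have := norm_sub_norm_le (1 : ℂ) (1 - ss t r z)
      rw [sub_sub_cancel, norm_one, norm_sub_rev] at this
      linarith
    have e : 1 / ss t r z - 1 = -((ss t r z - 1) / ss t r z) := by field_simp; ring
    rw [e, norm_neg, norm_div, div_le_iff₀ (by linarith)]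
    have := norm_nonneg (qq t r z - 1)
    nlinarith

/-- the local situation for `FF` near `-t²` -/
theorem substQ {κ R η : ℝ} {n : ℕ} {t r : ℝ} (hκ : 0 < κ) (hκ1 : κ ≤ 1 / 2) (hR : 4 ≤ R)
    (hη0 : 0 ≤ η) (hη1 : η ≤ 1) (ht : 0 < t) (hr : 0 < r)
    (hsm : 3 * (2 * r * R ^ 2 / t) + η * (R + 1) ≤ κ / 4)
    (hF : QQ κ R n η (fun z => XX (I * t + (r : ℂ) * z))) :
    QQ (κ / 2) (R - 1) n (η + 2 * (2 * r * R ^ 2 / t)) (GX t r) := by
  have hδ0 : 0 ≤ 2 * r * R ^ 2 / t := by positivity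
  have hηR : 0 ≤ η * (R + 1) := mul_nonneg hη0 (by linarith)
  have hq : ∀ z : ℂ, ‖z‖ ≤ R - 1 → ‖qq t r z - 1‖ * R ≤ 2 * r * R ^ 2 / t := by
    intro z hz
    rw [qq_sub ht hr]
    have : 2 * r * ‖z‖ / t * R = 2 * r * (‖z‖ * R) / t := by ring
    rw [this]
    have h2 : ‖z‖ * R ≤ R ^ 2 := by nlinarith
    gcongr
  have hq2 : ∀ z : ℂ, ‖z‖ ≤ R - 1 → ‖qq t r z - 1‖ ≤ 1 / 2 := by
    intro z hz
    have := hq z hz
    have := norm_nonneg (qq t r z - 1)
    nlinarith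
  refine pert (φ := ph t r) (φ' := fun z => 1 / ss t r z) hκ hκ1 hR hδ0 hη0 hη1 hsm hF ?_ ?_ ?_ ?_ ?_
  · have := b1.1
    unfold GX
    fun_prop
  · intro z
    unfold GX
    rw [← FF_conj]
    congr 1
    simp only [map_add, map_neg, map_pow, map_mul, Complex.conj_ofReal, Complex.conj_I,
      map_ofNat]
    ring
  · intro z hz
    exact GX_eventually ht.ne' hr.ne' (qq_ne (by have := hq2 z hz; linarith))
  · intro z hz
    refine (ph_sub ht hr (qq_ne (by have := hq2 z hz; linarith))).trans ?_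
    have h1 := hq z hz
    have h2 := norm_nonneg (qq t r z - 1)
    have h3 := norm_nonneg z
    nlinarith
  · intro z hz
    obtain ⟨h1, h2⟩ := ph_deriv ht hr (hq2 z hz)
    refine ⟨h1, h2.trans ?_⟩
    have h1 := hq z hz
    have h2 := norm_nonneg (qq t r z - 1)
    nlinarith

end Pool.Agent.H820R3.JE
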