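import Pool.Agent.H820R3.JE.Subst
import Pool.Agent.H986R2.K4.Win

set_option autoImplicit false

/-!
# The window for the derivatives with respect to `x = z ^ 2`
-/

namespace Pool.Agent.H820R3.JE

open Complex Filter Topology MeasureTheory Set
open Pool.Agent.H24R2.JP (XX FF Om Par b1)
open Pool.Agent.H986R2.K4 (QQ ZB S_NORM S_AW S_NL)

theorem winF (h1 : S_NORM) (h2 : S_AW) (h3 : S_NL) (hZ : ZB (1 / 2)) {r0 : ℝ} (hr0' : 1 / 2 < r0)
    (hr1 : r0 ≤ 1) : ∃ T0 : ℝ, 2 ≤ T0 ∧ ∀ (t : ℝ) (n : ℕ) (w : ℂ), T0 ≤ t →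
      r0 * Om t ≤ n → (n : ℝ) ≤ 2 * r0 * Om t → w.re = -t ^ 2 → w ∈ Par →
      iteratedDeriv n FF w = 0 → w.im = 0 := by
  have hr0 : 0 < r0 := by linarith
  obtain ⟨κ, hκ0, hκ1, hN⟩ := h1 (1 / 2) r0 (by norm_num) le_rfl hZ hr0' hr1
  set R : ℝ := 1 / (2 * r0) + 4 with hRdef
  have hR : 4 ≤ R := by
    have : 0 < 1 / (2 * r0) := by positivity
    linarith
  obtain ⟨κ1, η1, n1, hκ10, hκ1κ, hη1, H3⟩ := h3 (κ / 2) (R - 1) (by linarith) (by linarith)
    (by linarith)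
  obtain ⟨η2, n2, hη2, H2⟩ := h2 (κ / 2) (R - 1) κ1 (by linarith) (by linarith) (by linarith)
    hκ10 hκ1κ
  set η' : ℝ := min η1 η2 with hη'
  have hη'0 : 0 < η' := lt_min hη1 hη2
  set η : ℝ := min (η' / 2) (min 1 (κ / (8 * (R + 1)))) with hη
  have hη0 : 0 < η := lt_min (by positivity) (lt_min one_pos (by positivity))
  have hηa : η ≤ η' / 2 := min_le_left _ _
  have hηb : η ≤ 1 := (min_le_right _ _).trans (min_le_left _ _)
  have hηc : η * (R + 1) ≤ κ / 8 := by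
    have h : η ≤ κ / (8 * (R + 1)) := (min_le_right _ _).trans (min_le_right _ _)
    rw [le_div_iff₀ (by positivity)] at h
    linarith
  set δ1 : ℝ := min (η' / 4) (κ / 24) with hδ1
  have hδ10 : 0 < δ1 := lt_min (by positivity) (by positivity)
  obtain ⟨T0, hT0, H1⟩ := hN R η (by linarith) hη0
  refine ⟨max (max T0 (Real.exp (2 * (max n1 n2 : ℕ) / r0))) (4 * R ^ 2 / δ1),
    hT0.trans ((le_max_left _ _).trans (le_max_left _ _)), ?_⟩
  intro t n w ht hn1 hn2 hwre hwP hw0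
  have htT0 : T0 ≤ t := ((le_max_left _ _).trans (le_max_left _ _)).trans ht
  have htE : Real.exp (2 * (max n1 n2 : ℕ) / r0) ≤ t :=
    ((le_max_right _ _).trans (le_max_left _ _)).trans ht
  have htD : 4 * R ^ 2 / δ1 ≤ t := (le_max_right _ _).trans ht
  have ht2 : 2 ≤ t := hT0.trans htT0
  have ht0 : 0 < t := by linarith
  have hlog : 2 * ((max n1 n2 : ℕ) : ℝ) / r0 ≤ Real.log t :=
    (Real.le_log_iff_exp_le (by linarith)).2 htE
  have hlog0 : 0 < Real.log t := Real.log_pos (by linarith)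
  have hOm : 0 < Om t := by unfold Om; positivity
  have hnn : ((max n1 n2 : ℕ) : ℝ) ≤ n := by
    refine le_trans ?_ hn1
    rw [div_le_iff₀ hr0] at hlog
    unfold Om
    linarith
  have hnn' : max n1 n2 ≤ n := by exact_mod_cast hnn
  have hn0 : (0 : ℝ) < n := lt_of_lt_of_le (by positivity) hn1
  set r : ℝ := n / Om t with hr
  have hrpos : 0 < r := by positivity
  have hrr0 : r0 ≤ r := by rw [hr, le_div_iff₀ hOm]; exact hn1
  have hr2 : r ≤ 2 := by rw [hr, div_le_iff₀ hOm]; nlinarith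
  have hδ : 2 * r * R ^ 2 / t ≤ δ1 := by
    rw [div_le_iff₀ hδ10] at htD
    rw [div_le_iff₀ ht0]
    have : 2 * r * R ^ 2 ≤ 2 * 2 * R ^ 2 := by gcongr
    linarith
  have hδa : 2 * r * R ^ 2 / t ≤ η' / 4 := hδ.trans (min_le_left _ _)
  have hδb : 2 * r * R ^ 2 / t ≤ κ / 24 := hδ.trans (min_le_right _ _)
  have hQ := substQ hκ0 hκ1 hR hη0.le hηb ht0 hrpos (by linarith) (H1 t n htT0 hn1 hn2)
  have hQ' : QQ (κ / 2) (R - 1) n η' (GX t r) :=
    Pool.Agent.H986R2.K4.WinAux.mono (by linarith) hQ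
  set x : ℝ := w.im / (2 * t * r) with hx
  have hwx : -(t : ℂ) ^ 2 + (2 * I * t * r) * (x : ℂ) = w := by
    have e1 : (2 * I * t * r) * (x : ℂ) = ((2 * t * r * x : ℝ) : ℂ) * I := by push_cast; ring
    have e2 : 2 * t * r * x = w.im := by rw [hx]; field_simp
    rw [e1, e2]
    apply Complex.ext
    · simp [hwre, ← Complex.ofReal_pow]
    · simp [← Complex.ofReal_pow]
  have hder : ∀ m : ℕ, iteratedDeriv m (GX t r) (x : ℂ) =
      (2 * I * t * r) ^ m * iteratedDeriv m FF w := by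
    intro m
    have := Pool.Agent.H986R2.K4.WinAux.scale b1.1 (-(t : ℂ) ^ 2) (2 * I * t * r) m (x : ℂ)
    rw [hwx] at this
    exact this
  have hzero : iteratedDeriv n (GX t r) (x : ℂ) = 0 := by
    rw [hder, hw0, mul_zero]
  by_cases hc : κ1 ≤ |x|
  · exfalso
    refine H2 n _ ((le_max_right _ _).trans hnn')
      (Pool.Agent.H986R2.K4.WinAux.mono (min_le_right _ _) hQ') x hc ?_ hzero
    have him : |w.im| ≤ t + 1 / 2 := by
      have h4 : w.re + w.im ^ 2 ≤ 1 / 4 := hwP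
      apply abs_le_of_sq_le_sq _ (by linarith)
      rw [hwre] at h4
      nlinarith
    have e1 : |x| = |w.im| / (2 * t * r) := by
      rw [hx, abs_div, abs_of_pos (by positivity : 0 < 2 * t * r)]
    rw [e1, div_le_iff₀ (by positivity)]
    have e2 : (R - 1 - 2) * (2 * t * r) = (1 / (2 * r0) * r) * (2 * t) + 2 * t * r := by
      rw [hRdef]; ring
    have e3 : (1 : ℝ) / 2 ≤ 1 / (2 * r0) * r := by
      rw [div_mul_eq_mul_div, one_mul, div_le_div_iff₀ (by norm_num) (by positivity)]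
      linarith
    rw [e2]
    have e4 : 1 / 2 * (2 * t) ≤ 1 / (2 * r0) * r * (2 * t) :=
      mul_le_mul_of_nonneg_right e3 (by positivity)
    have e5 : 2 * 2 * (1 / 2) ≤ 2 * t * r := by
      have : (1 : ℝ) / 2 ≤ r := by linarith
      gcongr
    linarith
  · push Not at hc
    obtain ⟨h5, h6⟩ := H3 n _ ((le_max_left _ _).trans hnn')
      (Pool.Agent.H986R2.K4.WinAux.mono (min_le_left _ _) hQ') x hc.le hzero
    rw [hx] at h5
    exact (div_eq_zero_iff.1 h5).resolve_right (by positivity)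

end Pool.Agent.H820R3.JE
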